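import Mathlib
import Pool.Agent.Helper6K9.EX.Small

set_option autoImplicit false

/-!
# The strong Lang conjecture for small, torsion and cyclotomic multipliers, over all fields at once

In the strong form of Lang's conjecture the exceptional set `Z` does not depend on the number field
`K`, but the number of the remaining points does. For the points with small or cyclotomic
multipliers even the number of the remaining points over ALL fields is bounded, and the bound
depends only on the degree of the equations and on the number `r` of vectors.

Fix `d ≥ 1`, `r` and a real number `B`. There are `ε > 0` and numbers `M = M (d, r)`,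
`M' = M' (d, r, B)` with the following properties.

(A) Let `k` be a field of algebraic numbers, `X = {P = 0}` ANY closed subset of projective `n`-space
given by forms of degree at most `d` over `k`, and `Z = {G = 0}` any closed subset over `k`. The
following are equivalent.

1. (`CurvesIn`) Every nonconstant rational curve `T ↦ ∑ T ^ (l_j) v_j` with `r` terms on `X` (over
   the algebraic numbers) is contained in `Z`.
2. (`SmallBound`) For ALL fields `L ⊇ k` (with an embedding of the algebraic numbers) and all
   vectors `V_1, …, V_r` over `L` at most `M` points of `X ∖ Z` have homogeneous coordinates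
   `∑ t_j V_j`, where the `t_j` are algebraic numbers, of any degree, such that the height of
   `(t_1 : … : t_r)` is less than `ε`.
3. (`TorsFin`) For all algebraic vectors `V_j` only finitely many points of `X ∖ Z` have coordinates
   `∑ ζ_j V_j` with roots of unity `ζ_j`.

(B) For all `n`, `N` there is a finite list of forms in `x_0, …, x_n` whose coefficients are
polynomials with integer coefficients in the coefficients of `N` forms of degree at most `d`, such
that for every field `k` of characteristic zero and every integral closed subvariety `X` of
projective `n`-space over `k` given by `N` forms of degree at most `d` which is not uniruled (for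
instance of general type, of positive dimension) one of the forms in the list, specialised to the
coefficients of the equations of `X`, defines a proper closed subset `Z = X ∩ {G = 0}` such that
`SmallBound` holds for `X`, `Z`, and for all fields `L ⊇ k` and all vectors `v_1, …, v_r` over `L`
at most `M'` points of `X ∖ Z` have coordinates `∑ α_j v_j` with cyclotomic integers `α_j` for which
the mean of the squares of the absolute values of the conjugates is at most `B`.

For instance (`v_j` the standard basis, `r = n + 1`): for every number field `k` and every `X` over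
`k` as in (B), at most `M' (d, n + 1, B)` points of `X ∖ Z` over ALL cyclotomic extensions of `k`
have coordinates which are cyclotomic integers with all conjugates of absolute value at most `√B`.

The library theorems `small_multipliers` (`Y215/SP`), `cyc_bound` (`R870`) and `tfae_gen`
(`R849/PR`) of the starting repository give, for one `X` which is not uniruled, some `Z`, and the
equivalence for all `r` together with the condition on all rational curves; no starting hand-in
states them. New here: the exceptional sets for each single `r`, and the universal formulas for `Z`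
in families.
-/

namespace Pool.Agent.Results.MP_7ede32_ag.AllFieldsAtOnce

open MvPolynomial Pool.Agent.Helper259.AbsHt Pool.Agent.H533R3.SL Pool.Agent.Y215.SP
  Pool.Agent.R870 Pool.Agent.Helper6K9.EX

/-- **The strong Lang conjecture for small, torsion and cyclotomic multipliers, over all fields at
once.** -/
theorem result (d r : ℕ) (hd : 1 ≤ d) (B : ℝ) :
    ∃ (ε : ℝ) (M M' : ℕ), 0 < ε ∧
      -- (A) the exceptional sets for each number `r` of vectors
      (∀ (k : Type) [Field k] [Algebra k Qbar] (n N s : ℕ)
        (P : Fin N → MvPolynomial (Fin (n + 1)) k) (G : Fin s → MvPolynomial (Fin (n + 1)) k),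
        (∀ i, ∃ e, e ≤ d ∧ (P i).IsHomogeneous e) → (∀ i, ∃ e, (G i).IsHomogeneous e) →
        [CurvesIn r P G, SmallBound r ε M P G, TorsFin r P G].TFAE) ∧
      -- (B) varieties which are not uniruled, uniformly in families
      (∀ n N : ℕ, ∃ 𝓛 : Finset (MvPolynomial (Fin (n + 1))
          (MvPolynomial (Fin N × (Fin (n + 1) → Fin (d + 1))) ℤ)),
        (∀ g ∈ 𝓛, ∃ e, g.IsHomogeneous e) ∧
        ∀ (k : Type) [Field k] [CharZero k] (P : Fin N → MvPolynomial (Fin (n + 1)) k),
          (∀ i, ∃ e, e ≤ d ∧ (P i).IsHomogeneous e) → (Ideal.span (Set.range P)).IsPrime →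
          ¬ Uniruled (Ideal.span (Set.range P)) →
          ∃ g ∈ 𝓛, ∃ G : MvPolynomial (Fin (n + 1)) k, G = MvPolynomial.map (coefHom d P) g ∧
            G ∉ Ideal.span (Set.range P) ∧ SmallBound r ε M P (fun _ : Fin 1 => G) ∧
            ∀ (L : Type) [Field L] [Algebra k L] (v : Fin r → Fin (n + 1) → L),
              (cycOff P G B v).encard ≤ (M' : ℕ∞)) := by
  classical
  obtain ⟨D, hD⟩ := cycOff_subset B
  have hε : 0 < epsn ((d + 1) ^ r) / (d : ℝ) :=
    div_pos (epsn_pos _ (Nat.one_le_pow _ _ (by omega))) (by exact_mod_cast hd)
  refine ⟨epsn ((d + 1) ^ r) / d, 2 ^ r * M0 ((d + 1) ^ r) d r,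
    2 ^ (r * D) * M0 ((d + 1) ^ (r * D)) d (r * D), hε, ?_, ?_⟩
  · intro k _ _ n N s P G hP _
    have hchar : CharZero k := by
      have h1 : CharZero Qbar := inferInstance
      exact (algebraMap k Qbar).charZero_iff (algebraMap k Qbar).injective |>.2 h1
    tfae_have 1 → 2 := fun h => small_of_all d hd P hP G
      (fun i L _ _ c l h0 hc => curves_all h i L c l h0 hc)
    tfae_have 2 → 3 := tors_of_small hε
    tfae_have 3 → 1 := curves_of_tors
    tfae_finish
  · intro n N
    obtain ⟨𝓛1, h11, h12⟩ := exists_univ n N d r hd
    obtain ⟨𝓛2, h21, h22⟩ := exists_univ n N d (r * D) hd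
    refine ⟨(𝓛1 ×ˢ 𝓛2).image (fun p => p.1 * p.2), ?_, ?_⟩
    · intro g hg
      rw [Finset.mem_image] at hg
      obtain ⟨⟨g1, g2⟩, hg, rfl⟩ := hg
      rw [Finset.mem_product] at hg
      obtain ⟨e1, he1⟩ := h11 g1 hg.1
      obtain ⟨e2, he2⟩ := h21 g2 hg.2
      exact ⟨e1 + e2, he1.mul he2⟩
    · intro k _ _ P hP hprime hnu
      obtain ⟨g1, hg1, hgI1, hgC1⟩ := h12 k P hP hprime hnu
      obtain ⟨g2, hg2, hgI2, hgC2⟩ := h22 k P hP hprime hnu
      refine ⟨g1 * g2, Finset.mem_image.2 ⟨(g1, g2), Finset.mem_product.2 ⟨hg1, hg2⟩, rfl⟩, _,
        rfl, ?_, ?_, ?_⟩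
      · rw [map_mul]
        intro h
        exact (hprime.mem_or_mem h).elim hgI1 hgI2
      · refine small_of_all d hd P hP _ fun _ L _ _ c l h0 hc => ?_
        rw [map_mul, map_mul, hgC1 L c l h0 hc, zero_mul]
      · intro L _ _ v
        refine cyc_of_all d hd B D (fun ι n N r P G v ε hε => hD ι n N r P G v ε hε) P hP _
          (fun L _ _ c l h0 hc => ?_) L v
        rw [map_mul, map_mul, hgC2 L c l h0 hc, mul_zero]

end Pool.Agent.Results.MP_7ede32_ag.AllFieldsAtOnce
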