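import Mathlib
import Pool.Agent.Helper6K9.EX.Par

set_option autoImplicit false

/-!
# The exceptional set of Lang's strong conjecture for short sums of `S`-units is the union of the
# rational curves

Let `X = {P = 0}` be ANY closed subvariety of projective `n`-space over a number field `k` (it can
be reducible, singular, uniruled) and let `Z = {G = 0}` be any closed subset over `k`.

(A) For each `r` the following five statements are equivalent.

1. (`CurvesIn`) Every nonconstant rational curve `T ↦ ∑ T ^ (l_j) v_j` with `r` terms on `X` (over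
   the algebraic numbers) is contained in `Z`.
2. (`HeightBound`) For every finitely generated group `Γ` of nonzero algebraic numbers there is `C`
   such that `h(x) ≤ C (1 + h(V))` for all points `x = u_1 V_1 + … + u_r V_r` of `X ∖ Z`, where
   `V_j` are arbitrary algebraic vectors and the `u_j` have powers in `Γ`.
3. (`FiniteSums`) For all number fields `K`, all `Γ` and all `B` only finitely many points of
   `(X ∖ Z)(K)` are of this form with `h(V) ≤ B`.
4. (`FinitePowers`) For all number fields `K` and all fixed vectors `v_1, …, v_r` over `K` and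
   exponents `l_1, …, l_r`, only finitely many points of `X ∖ Z` are of the form
   `∑ 2 ^ (m l_j) v_j` with `m = 0, 1, 2, …`
5. (`ParamBound`) There is `C` such that `h(x) ≤ C (1 + h(V))` for all points
   `x = ∑ t ^ (l_j) V_j` of `X ∖ Z`, for all algebraic numbers `t`, all exponents `l_j` and all
   algebraic vectors `V_j`.

(B) The following are equivalent: every nonconstant rational curve on `X` is contained in `Z`;
2. for all `r`; 3. for all `r`; 4. for all `r`; 5. for all `r`.

(C) For each `r` there is a smallest closed subset `Z_r` over `k` for which the `r`-term points of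
`X ∖ Z_r` are finite in number over all number fields (in the sense of 3), namely the Zariski
closure of the union of the nonconstant rational curves with `r` terms on `X`; and there is a
smallest closed subset `Z_∞` that works for all `r`, namely the Zariski closure of the union of all
nonconstant rational curves on `X`.

So for this class of points (sums of a bounded number of elements of arbitrary finitely generated
groups, with moving coefficients, over all number fields) the diophantine exceptional set of Lang is
determined: it is the algebraic exceptional set given by the rational curves. In particular one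
proper `Z` as in Q1, for all `K`, `Γ` AND all `r`, exists for an integral `X` if and only if the
rational curves on `X` are not Zariski dense, as Lang's conjectures predict for varieties of
general type; if they are dense but `X` is not uniruled (this happens for K3 surfaces), `Z` must
depend on `r`.

The starting results `FiniteRankSums` and `BoundedHeight` show that for `X` integral and not
uniruled and for each `r` some proper `Z` exists; here the sets `Z` that work are determined, for
all `X`.

Method: the library theorems `mult_bound` (`Y215/SK`, subspace theorem with moving coefficients) and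
`dichK` (`TH409/SH`) give a nonconstant curve with `r` terms on `X` through a point of `X ∖ Z` over
a large field; it is specialised to the algebraic numbers by the Nullstellensatz, keeping the
`r` exponents. Conversely the points with parameter `2 ^ m` on a curve that is not contained in `Z`
are infinite in number.
-/

namespace Pool.Agent.Results.MP_7ede32_ag.ExceptionalSet

open MvPolynomial Pool.Agent.Helper259.AbsHt Pool.Agent.H533R3.SL Pool.Agent.Helper6K9.EX

theorem partA {k : Type} [Field k] [NumberField k] [Algebra k Qbar] {n N s : ℕ}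
    (P : Fin N → MvPolynomial (Fin (n + 1)) k) (hP : ∀ i, ∃ e, (P i).IsHomogeneous e)
    (G : Fin s → MvPolynomial (Fin (n + 1)) k) (hG : ∀ i, ∃ e, (G i).IsHomogeneous e) (r : ℕ) :
    [CurvesIn r P G, HeightBound r P G, FiniteSums r P G, FinitePowers r P G,
      ParamBound r P G].TFAE := by
  tfae_have 1 → 2 := height_of_curves hP hG
  tfae_have 2 → 3 := finite_of_height
  tfae_have 3 → 4 := powers_of_sums
  tfae_have 4 → 1 := curves_of_powers
  tfae_have 1 → 5 := param_of_curves hP
  tfae_have 5 → 4 := powers_of_param
  tfae_finish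

/-- the ideal of all forms which vanish on a family of curves has a smallest zero set -/
theorem smallest {k : Type} [Field k] [Algebra k Qbar] {n N : ℕ}
    (P : Fin N → MvPolynomial (Fin (n + 1)) k)
    (S : Set (Fin (n + 1) → Polynomial Qbar)) :
    ∃ (s : ℕ) (G : Fin s → MvPolynomial (Fin (n + 1)) k), (∀ i, ∃ e, (G i).IsHomogeneous e) ∧
      (∀ p ∈ S, (∀ i, aeval p (P i) = 0) → ∀ i, aeval p (G i) = 0) ∧
      ∀ (s' : ℕ) (G' : Fin s' → MvPolynomial (Fin (n + 1)) k), (∀ i, ∃ e, (G' i).IsHomogeneous e) →
        (∀ p ∈ S, (∀ i, aeval p (P i) = 0) → ∀ i, aeval p (G' i) = 0) →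
        ∀ x : Fin (n + 1) → Qbar, (∀ i, aeval x (G i) = 0) → ∀ i, aeval x (G' i) = 0 := by
  obtain ⟨s, G, hG, hspan⟩ := exists_system {g : MvPolynomial (Fin (n + 1)) k |
    (∃ e, g.IsHomogeneous e) ∧ ∀ p ∈ S, (∀ i, aeval p (P i) = 0) → aeval p g = 0}
  refine ⟨s, G, fun i => (hG i).1, fun p hp h0 i => (hG i).2 p hp h0, ?_⟩
  intro s' G' hG'h hG' x hx i
  have h1 := hspan (G' i) ⟨hG'h i, fun p hp h0 => hG' p hp h0 i⟩
  have h2 : Ideal.span (Set.range G) ≤ RingHom.ker (aeval (R := k) x) := by
    rw [Ideal.span_le]
    rintro _ ⟨j, rfl⟩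
    exact hx j
  exact h2 h1

/-- **The exceptional set for short sums of elements of groups of finite rank.** -/
theorem result (k : Type) [Field k] [NumberField k] [Algebra k Qbar] (n N : ℕ)
    (P : Fin N → MvPolynomial (Fin (n + 1)) k) (hP : ∀ i, ∃ e, (P i).IsHomogeneous e) :
    -- (A) the closed subsets which work for sums of `r` vectors
    (∀ (s : ℕ) (G : Fin s → MvPolynomial (Fin (n + 1)) k), (∀ i, ∃ e, (G i).IsHomogeneous e) →
      ∀ r : ℕ, [CurvesIn r P G, HeightBound r P G, FiniteSums r P G, FinitePowers r P G,
        ParamBound r P G].TFAE) ∧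
    -- (B) the closed subsets which work for all `r`
    (∀ (s : ℕ) (G : Fin s → MvPolynomial (Fin (n + 1)) k), (∀ i, ∃ e, (G i).IsHomogeneous e) →
      [AllCurvesIn P G, ∀ r, HeightBound r P G, ∀ r, FiniteSums r P G, ∀ r, FinitePowers r P G,
        ∀ r, ParamBound r P G].TFAE) ∧
    -- (C) the smallest closed subsets
    (∀ r : ℕ, ∃ (s : ℕ) (G : Fin s → MvPolynomial (Fin (n + 1)) k),
      (∀ i, ∃ e, (G i).IsHomogeneous e) ∧ FiniteSums r P G ∧
      ∀ (s' : ℕ) (G' : Fin s' → MvPolynomial (Fin (n + 1)) k), (∀ i, ∃ e, (G' i).IsHomogeneous e) →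
        FiniteSums r P G' →
        ∀ x : Fin (n + 1) → Qbar, (∀ i, aeval x (G i) = 0) → ∀ i, aeval x (G' i) = 0) ∧
    (∃ (s : ℕ) (G : Fin s → MvPolynomial (Fin (n + 1)) k),
      (∀ i, ∃ e, (G i).IsHomogeneous e) ∧ (∀ r, FiniteSums r P G) ∧
      ∀ (s' : ℕ) (G' : Fin s' → MvPolynomial (Fin (n + 1)) k), (∀ i, ∃ e, (G' i).IsHomogeneous e) →
        (∀ r, FiniteSums r P G') →
        ∀ x : Fin (n + 1) → Qbar, (∀ i, aeval x (G i) = 0) → ∀ i, aeval x (G' i) = 0) := by
  have hB : ∀ (s : ℕ) (G : Fin s → MvPolynomial (Fin (n + 1)) k),
      (∀ i, ∃ e, (G i).IsHomogeneous e) →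
      [AllCurvesIn P G, ∀ r, HeightBound r P G, ∀ r, FiniteSums r P G, ∀ r, FinitePowers r P G,
        ∀ r, ParamBound r P G].TFAE := by
    intro s G hG
    have hA := partA P hP G hG
    tfae_have 1 ↔ 2 := allCurves_iff.trans (forall_congr' fun r => (hA r).out 0 1)
    tfae_have 2 ↔ 3 := forall_congr' fun r => (hA r).out 1 2
    tfae_have 3 ↔ 4 := forall_congr' fun r => (hA r).out 2 3
    tfae_have 4 ↔ 5 := forall_congr' fun r => (hA r).out 3 4
    tfae_finish
  refine ⟨fun s G hG r => partA P hP G hG r, hB, fun r => ?_, ?_⟩
  · obtain ⟨s, G, h1, h2, h3⟩ := smallest P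
      {p : Fin (n + 1) → Polynomial Qbar | NonConst p ∧ ∃ (l : Fin r → ℕ)
        (c : Fin r → Fin (n + 1) → Qbar), p = cur c l}
    have hiff : ∀ (s : ℕ) (G : Fin s → MvPolynomial (Fin (n + 1)) k),
        (∀ i, ∃ e, (G i).IsHomogeneous e) → (FiniteSums r P G ↔
        ∀ p ∈ {p : Fin (n + 1) → Polynomial Qbar | NonConst p ∧ ∃ (l : Fin r → ℕ)
          (c : Fin r → Fin (n + 1) → Qbar), p = cur c l},
          (∀ i, aeval p (P i) = 0) → ∀ i, aeval p (G i) = 0) := by
      intro s G hG
      have h02 : CurvesIn r P G ↔ FiniteSums r P G := (partA P hP G hG r).out 0 2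
      rw [← h02]
      constructor
      · rintro h p ⟨hp, l, c, rfl⟩ h0 i
        exact h l c hp h0 i
      · intro h l c hp h0 i
        exact h _ ⟨hp, l, c, rfl⟩ h0 i
    refine ⟨s, G, h1, (hiff s G h1).2 h2, fun s' G' hG'h hG' => h3 s' G' hG'h
      ((hiff s' G' hG'h).1 hG')⟩
  · obtain ⟨s, G, h1, h2, h3⟩ := smallest P
      {p : Fin (n + 1) → Polynomial Qbar | NonConst p}
    refine ⟨s, G, h1, ((hB s G h1).out 0 2).1 h2, fun s' G' hG'h hG' => h3 s' G' hG'h
      (((hB s' G' hG'h).out 0 2).2 hG')⟩

end Pool.Agent.Results.MP_7ede32_ag.ExceptionalSet
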