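import Mathlib
import Pool.Agent.Helper6K9.LG.Sp
import Pool.Agent.Results.MP_7ede32_ag.ExceptionalSet

set_option autoImplicit false

/-!
# Varieties of general type given by nested sums of high powers: the exceptional set is the special
# set of Lang

`X = {P = 0}` is a projective variety over a number field `k`, in `P^n`, given by forms which over
the algebraic numbers are nested sums of high powers of linear forms, or of monomials
(`HighTowers`): at each of at most `h + 1` levels at most `s` summands `c g ^ e`, with exponents
`e ≥ (n + 1) (h + 1) (2 s + 1) ^ 5`; for instance the diagonal hypersurfaces of high degree and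
their intersections. `X` can be reducible and singular, and of any dimension.

There is ONE closed subset `Z = {G = 0}` over `k`, such that

(1) `Z` is the special set of Lang: over the algebraic numbers it is the Zariski closure `SpAlg` of
the union of the positive-dimensional subvarieties of `X` which are not of general type, and also
the closure `SpMaps` of the union of the images of all varieties of positive dimension which are not
of general type under generically finite rational maps to `X`;

(2) an irreducible component of `X` of positive dimension is of general type if and only if it is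
not contained in `Z`;

(3) for ALL `r`: for all number fields `K`, all finitely generated groups `Γ` of algebraic numbers
and all `B`, only finitely many points of `(X ∖ Z)(K)` are sums `u_1 V_1 + … + u_r V_r` where powers
of the `u_j` are in `Γ` and the algebraic vectors `V_j` have height at most `B`; there is a height
bound linear in the height of `(V_1, …, V_r)`; and there is a uniform height bound for the points
`∑ t ^ (l_j) V_j`, for all algebraic numbers `t`, exponents and vectors;

(4) `Z` is optimal already for `r = n + 1`, and for `r = 2` in the case of linear forms: if a closed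
set `Z'` over `k` has the property that for given vectors `v_j` over a number field and exponents
`l_j` only finitely many points of `X ∖ Z'` are of the form `∑_{j ≤ r} 2 ^ (m l_j) v_j`, then `Z'`
contains `Z`;

(5) if `X` is geometrically irreducible of positive dimension, then `X` is of general type if and
only if there is a proper closed subset over `k` outside of which the points of (3) with `r = n + 1`
are finite in number, for all `K`, `Γ`, `B`.

So in this class of varieties Lang's strong conjecture, with the exceptional set predicted by Lang,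
and its converse hold for these points. The result `ExceptionalSet` determines, for arbitrary `X`,
the exceptional set for each `r` in terms of rational curves with `r` terms; the new part here
is that for this class of varieties all the sets for `r ≥ n + 1` are equal to each other and to the
special set given by the varieties which are not of general type, and the criterion for general
type.

Method: the theorems on the varieties which are not of general type over an algebraically closed
field in the libraries `TH710/ND` and `X333` (Nevanlinna-type estimates for function fields) give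
short rational curves through their general points; Lüroth's theorem; Galois descent for the space
of the forms which vanish on all rational curves in `X`.
-/

namespace Pool.Agent.Results.MP_7ede32_ag.GeneralTypeTowers

open MvPolynomial Pool.Agent.Helper259.AbsHt Pool.Agent.H533R3.SL Pool.Agent.Helper6K9.EX
  Pool.Agent.W602.GT Pool.Agent.TH710.ND Pool.Agent.Helper6K9.LG
open Pool.Agent.X333.SL (SpMaps)

theorem isGalois_qbar (k : Type) [Field k] [NumberField k] [Algebra k Qbar] :
    IsGalois k Qbar := by
  have : IsScalarTower ℚ k Qbar := IsScalarTower.of_algebraMap_eq fun x => by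
    simp
  have : Algebra.IsAlgebraic ℚ Qbar := AlgebraicClosure.isAlgebraic ℚ
  have : Algebra.IsAlgebraic k Qbar := Algebra.IsAlgebraic.tower_top (K := ℚ) k
  have : IsAlgClosure k Qbar := ⟨inferInstance, inferInstance⟩
  have : Normal k Qbar := IsAlgClosure.normal k Qbar
  exact {}

/-- short curves, and all curves -/
theorem all_of_short {k : Type} [Field k] [Algebra k Qbar] {n q m r : ℕ}
    {P : Fin q → MvPolynomial (Fin (n + 1)) k} {G : Fin m → MvPolynomial (Fin (n + 1)) k}
    (hG : ∀ i, ∃ e, (G i).IsHomogeneous e) (hPf : ∀ i, IsForm (bar Qbar P i))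
    (hshort : ∀ (K : Type) [Field K] [Algebra Qbar K] (y : Fin (n + 1) → K),
      SubVar (bar Qbar P) K 1 y → ¬ GeneralType Qbar K 1 →
      ∀ H : MvPolynomial (Fin (n + 1)) Qbar, IsForm H → val y H ≠ 0 →
      ∃ (l : Fin r → ℕ) (v : Fin r → Fin (n + 1) → Qbar),
        IsCurve (bar Qbar P) (cur v l) ∧ aeval (cur v l) H ≠ 0)
    (h : CurvesIn r P G) : AllCurvesIn P G := by
  intro p hnc hp i
  have hf : IsForm (bar Qbar G i) := by
    obtain ⟨e, he⟩ := hG i
    exact ⟨e, he.map _⟩
  have h1 : aeval p (bar Qbar G i) = 0 := by
    refine curve_of_special hPf (isCurve_bar.2 ⟨hnc, hp⟩) hf fun K _ _ y hy hgt => ?_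
    by_contra hne
    obtain ⟨l, v, h2, h3⟩ := hshort K y hy hgt _ hf hne
    apply h3
    unfold bar
    rw [MvPolynomial.aeval_map_algebraMap]
    have h4 := isCurve_bar.1 h2
    exact h l v h4.1 h4.2 i
  unfold bar at h1
  rwa [MvPolynomial.aeval_map_algebraMap] at h1

/-- **Lang's strong conjecture for sums of elements of groups of finite rank, on the varieties given
by nested sums of high powers.** -/
theorem result (k : Type) [Field k] [NumberField k] [Algebra k Qbar] (n q : ℕ)
    (P : Fin q → MvPolynomial (Fin (n + 1)) k) (s N h : ℕ)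
    (hP : HighTowers s N h (bar Qbar P)) (hN : (n + 1) * ((h + 1) * (2 * s + 1) ^ 5) ≤ N) :
    ∃ (m : ℕ) (G : Fin m → MvPolynomial (Fin (n + 1)) k),
      (∀ i, ∃ e, (G i).IsHomogeneous e) ∧
      -- (1) `Z = {G = 0}` is the special set
      (∀ x ∈ Cone (bar Qbar P), [∀ i, aeval x (G i) = 0, x ∈ SpAlg (bar Qbar P),
        x ∈ SpMaps (bar Qbar P)].TFAE) ∧
      -- (2) the components of general type
      (∀ (K : Type) [Field K] [Algebra Qbar K] (w : ℕ) (y : Fin (n + 1) → K), 1 ≤ w →
        SubVar (bar Qbar P) K w y → IsComponent (bar Qbar P) y →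
        (GeneralType Qbar K w ↔ ∃ i, val y (bar Qbar G i) ≠ 0)) ∧
      -- (3) finiteness outside `Z` for all `r`
      (∀ r, FiniteSums r P G ∧ HeightBound r P G ∧ ParamBound r P G) ∧
      -- (4) `Z` is optimal
      (∀ r, n + 1 ≤ r ∨ ((∀ e, IsNested s N h (bar Qbar P e)) ∧ 2 ≤ r) →
        ∀ (m' : ℕ) (G' : Fin m' → MvPolynomial (Fin (n + 1)) k),
        (∀ i, ∃ e, (G' i).IsHomogeneous e) → FinitePowers r P G' →
        ∀ x : Fin (n + 1) → Qbar, (∀ i, aeval x (G i) = 0) → ∀ i, aeval x (G' i) = 0) ∧
      -- (5) the criterion for general type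
      (∀ (K : Type) [Field K] [Algebra Qbar K] (w : ℕ) (y : Fin (n + 1) → K), 1 ≤ w →
        SubVar (bar Qbar P) K w y → Cone (bar Qbar P) ⊆ VarPts Qbar y →
        (GeneralType Qbar K w ↔ ∃ (m' : ℕ) (G' : Fin m' → MvPolynomial (Fin (n + 1)) k),
          (∀ i, ∃ e, (G' i).IsHomogeneous e) ∧ (∃ i, val y (bar Qbar G' i) ≠ 0) ∧
          FiniteSums (n + 1) P G')) := by
  classical
  have := isGalois_qbar k
  obtain ⟨hNb, -, -⟩ := bnd_le hN
  have hPf : ∀ i, IsForm (bar Qbar P i) := fun i => hP.form i
  have hinj : Function.Injective (algebraMap k Qbar) := (algebraMap k Qbar).injective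
  have hPh : ∀ i, ∃ e, (P i).IsHomogeneous e := by
    intro i
    obtain ⟨e, he⟩ := hPf i
    refine ⟨e, fun a ha => he ?_⟩
    unfold bar
    rw [MvPolynomial.coeff_map]
    exact (map_ne_zero_iff _ hinj).2 ha
  obtain ⟨m, G, hG, hS, hmin⟩ := Pool.Agent.Results.MP_7ede32_ag.ExceptionalSet.smallest P
    {p : Fin (n + 1) → Polynomial Qbar | NonConst p}
  have hbarf : ∀ {m' : ℕ} (G' : Fin m' → MvPolynomial (Fin (n + 1)) k),
      (∀ i, ∃ e, (G' i).IsHomogeneous e) → ∀ i, IsForm (bar Qbar G' i) := by
    intro m' G' hG' i
    obtain ⟨e, he⟩ := hG' i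
    exact ⟨e, he.map _⟩
  have hall : AllCurvesIn P G := fun p hp h0 i => hS p hp h0 i
  -- single forms which vanish on all curves
  have hmin1 : ∀ g : MvPolynomial (Fin (n + 1)) k, (∃ e, g.IsHomogeneous e) →
      (∀ p : Fin (n + 1) → Polynomial Qbar, NonConst p → (∀ i, aeval p (P i) = 0) →
        aeval p g = 0) → ∀ x ∈ {x : Fin (n + 1) → Qbar | ∀ i, aeval x (G i) = 0},
      aeval x g = 0 := by
    intro g hg h1 x hx
    exact hmin 1 (fun _ => g) (fun _ => hg) (fun p hp h0 _ => h1 p hp h0) x hx 0
  have hcurG : ∀ i p, IsCurve (bar Qbar P) p → aeval p (bar Qbar G i) = 0 := by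
    intro i p hp
    unfold bar
    rw [MvPolynomial.aeval_map_algebraMap]
    have h1 := isCurve_bar.1 hp
    exact hall p h1.1 h1.2 i
  have hval : ∀ {m' : ℕ} (G' : Fin m' → MvPolynomial (Fin (n + 1)) k) (x : Fin (n + 1) → Qbar) i,
      val x (bar Qbar G' i) = aeval x (G' i) := by
    intro m' G' x i
    unfold bar Pool.Agent.W602.GT.val
    rw [MvPolynomial.aeval_map_algebraMap]
  have h1 : ∀ x ∈ Cone (bar Qbar P), (∀ i, aeval x (G i) = 0) ↔
      ∀ H : MvPolynomial (Fin (n + 1)) Qbar, IsForm H →
        (∀ p, IsCurve (bar Qbar P) p → aeval p H = 0) → val x H = 0 := by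
    intro x hx
    constructor
    · intro h2 H hH hp
      exact descend_form (k := k) (L := Qbar) hmin1 hH hp h2
    · intro h2 i
      rw [← hval]
      exact h2 _ (hbarf G hG i) (hcurG i)
  have h2 : ∀ (K : Type) [Field K] [Algebra Qbar K] (w : ℕ) (y : Fin (n + 1) → K), 
        SubVar (bar Qbar P) K w y → ¬ GeneralType Qbar K w → ∀ i, val y (bar Qbar G i) = 0 := by
    intro K _ _ w y hy hgt i
    by_contra hne
    have hgen : Algebra.IsAlgebraic (coords Qbar y) K := by
      rw [hy.gen]
      infer_instance
    obtain ⟨l, v, h3, h4⟩ := short_of_not hP hNb hy.ne hy.mem hgen hy.dim hgt (hbarf G hG i) hne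
    exact h4 (hcurG i _ h3)
  -- minimality
  have h4 : ∀ r, n + 1 ≤ r ∨ ((∀ e, IsNested s N h (bar Qbar P e)) ∧ 2 ≤ r) →
        ∀ (m' : ℕ) (G' : Fin m' → MvPolynomial (Fin (n + 1)) k),
        (∀ i, ∃ e, (G' i).IsHomogeneous e) → FinitePowers r P G' →
        ∀ x : Fin (n + 1) → Qbar, (∀ i, aeval x (G i) = 0) → ∀ i, aeval x (G' i) = 0 := by
    intro r hr m' G' hG' hfin x hx i
    have h5 : CurvesIn r P G' :=
      ((Pool.Agent.Results.MP_7ede32_ag.ExceptionalSet.partA P hPh G' hG' r).out 0 3).2 hfin
    have h6 : AllCurvesIn P G' := by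
      refine all_of_short hG' hPf (r := r) ?_ h5
      intro K _ _ y hy hgt H hH hHy
      have hgen : Algebra.IsAlgebraic (coords Qbar y) K := by
        rw [hy.gen]
        infer_instance
      rcases hr with hr | ⟨hlin, hr⟩
      · obtain ⟨l, v, h3, h4⟩ := short_of_not hP hNb hy.ne hy.mem hgen hy.dim hgt hH hHy
        obtain ⟨l', v', hcur⟩ := cur_pad hr l v
        exact ⟨l', v', by rw [hcur]; exact h3, by rw [hcur]; exact h4⟩
      · obtain ⟨l, v, h3, h4⟩ := line_of_not hlin hNb hy.ne hy.mem hgen hy.dim hgt hH hHy
        obtain ⟨l', v', hcur⟩ := cur_pad hr l v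
        exact ⟨l', v', by rw [hcur]; exact h3, by rw [hcur]; exact h4⟩
    exact hmin1 (G' i) (hG' i) (fun p hp h0 => h6 p hp h0 i) x hx
  have h3 : ∀ r, FiniteSums r P G ∧ HeightBound r P G ∧ ParamBound r P G := by
    intro r
    have h5 : CurvesIn r P G := fun l c hnc h0 i => hall _ hnc h0 i
    have hA := Pool.Agent.Results.MP_7ede32_ag.ExceptionalSet.partA P hPh G hG r
    exact ⟨(hA.out 0 2).1 h5, (hA.out 0 1).1 h5, (hA.out 0 4).1 h5⟩
  have hcompgt : ∀ (K : Type) [Field K] [Algebra Qbar K] (w : ℕ) (y : Fin (n + 1) → K), 1 ≤ w →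
        SubVar (bar Qbar P) K w y → IsComponent (bar Qbar P) y →
        (GeneralType Qbar K w ↔ ∃ i, val y (bar Qbar G i) ≠ 0) := by
    intro K _ _ w y hw hy hcomp
    constructor
    · intro hgt
      by_contra hcon
      push Not at hcon
      obtain ⟨H, hH, hHy, hHc⟩ := form_of_gt hP hN hw hy hcomp hgt
      obtain ⟨x, hx, hx0⟩ := specialise y H hHy
      apply hx
      refine descend_form (k := k) (L := Qbar) hmin1 hH hHc (x := x) fun i => ?_
      rw [← hval]
      exact hx0 _ (hcon i)
    · rintro ⟨i, hi⟩
      by_contra hgt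
      exact hi (h2 K w y hy hgt i)
  refine ⟨m, G, hG, fun x hx => ?_, hcompgt, h3, h4, ?_⟩
  · tfae_have 1 ↔ 2 := (h1 x hx).trans (mem_spAlg_iff hP hNb hx).symm
    tfae_have 1 ↔ 3 := (h1 x hx).trans (mem_spMaps_iff hP hNb hx).symm
    tfae_finish
  · intro K _ _ w y hw hy hirr
    have hcomp : IsComponent (bar Qbar P) y :=
      ⟨1, ⟨0, isHomogeneous_one _ _⟩, by
        unfold Pool.Agent.W602.GT.val
        rw [map_one]
        exact one_ne_zero, fun x hx _ => hirr hx⟩
    constructor
    · intro hgt
      exact ⟨m, G, hG, (hcompgt K w y hw hy hcomp).1 hgt, (h3 (n + 1)).1⟩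
    · rintro ⟨m', G', hG', ⟨i, hi⟩, hfin⟩
      by_contra hgt
      have h5 := h2 K w y hy hgt
      obtain ⟨x, hx, hx0⟩ := specialise y _ hi
      have h6 : FinitePowers (n + 1) P G' :=
        ((Pool.Agent.Results.MP_7ede32_ag.ExceptionalSet.partA P hPh G' hG' (n + 1)).out 2 3).1
          hfin
      have h7 := h4 (n + 1) (Or.inl le_rfl) m' G' hG' h6 x (fun j => by
        rw [← hval]
        exact hx0 _ (h5 j)) i
      apply hx
      change val x (bar Qbar G' i) = 0
      rw [hval]
      exact h7

end Pool.Agent.Results.MP_7ede32_ag.GeneralTypeTowers
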