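import Mathlib
import Pool.Agent.Helper6K9.EX.Hyp
import Pool.Agent.Helper6K9.EX.Set

set_option autoImplicit false

/-!
# The strong Lang conjecture for sparse points, uniformly in families

Caporaso, Harris and Mazur derived from Lang's conjectures that the number of rational points is
uniformly bounded in families. Here the uniformity in families is proved for sparse points, on all
varieties that are not uniruled, over all number fields at once.

Fix `n`, `N`, `d ≥ 1` and `r`. There is a FINITE list `𝓛` of polynomials in `x_0, …, x_n`,
homogeneous, whose coefficients are polynomials with INTEGER coefficients in the coefficients of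
`N` forms of degree at most `d`, such that the following holds. For every number field `k` and every
integral closed subvariety `X` of projective `n`-space over `k` given by `N` forms `P_i` of degree at
most `d` which is not uniruled (for instance of general type, of positive dimension), there is
`g ∈ 𝓛` such that for the form `G` obtained from `g` by putting in the coefficients of the `P_i`
the closed subset `Z = X ∩ {G = 0}` is proper and

(1) for every number field `K ⊇ k`, every nonzero nonunit `b` of `𝓞 K` and every finite set `V` of
digits, at most `#V ^ ((n + 1) r) ((((d + 1) ^ r)!) ^ 2) ^ N` points of `(X ∖ Z)(K)` have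
homogeneous coordinates that are combinations of the same `r` powers of `b` with digits in `V`;

(2) for all number fields `K ⊇ k`, all `t ∈ K`, all exponents `l_j` and vectors `v_j` over `K` every
point `x = ∑ t ^ (l_j) v_j` of `X ∖ Z` satisfies

  `h(x) ≤ (1 + 8 (4 d) ^ r) (d h(v) + log (A r ^ d))`,

`A ≥ 1` any bound for the sums of the houses of the coefficients of the `P_i`;

(3) for every finitely generated group `Γ` of algebraic numbers there is `C` such that
`h(x) ≤ C (1 + h(V))` for all points `x = ∑ u_j V_j` of `X ∖ Z`, where the `u_j` have powers in `Γ`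
and the `V_j` are any algebraic vectors; over every number field only finitely many of these points
have `h(V) ≤ B`.

In particular the exceptional sets `Z` have degree at most `D (n, N, d, r)` and height at most
`C (n, N, d, r) (1 + h(X))`, and the bounds in (1) and (2) depend on `X` only through `N`, `d` and
`A`. In the starting results `UniformCount`, `BoundedHeight`, `SparseStrong`, `FiniteRankSums` the set
`Z` exists for each `X` separately; nothing is said about its dependence on `X`.

Method: over the ring of the universal coefficients the points on the nonconstant curves with given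
exponents on the universal variety form a constructible set, by the theorem of Chevalley. The
generic point of a variety `X` which is not uniruled is not in this set: otherwise the residue fields
of the generic point of `X` and of a point of the space of curves, over the universal coefficient
ring, could be amalgamated, and `X` would be uniruled. So in each of the finitely many pieces of the
constructible set one of the defining polynomials does not vanish on `X`, or the piece does not meet
`X`. The exponents matter only through finitely many patterns of coincidences.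
-/

namespace Pool.Agent.Results.MP_7ede32_ag.UniformFamilies

open MvPolynomial NumberField Pool.Agent.Helper259.AbsHt Pool.Agent.H533R3.SL
  Pool.Agent.H458.Sp Pool.Agent.TH409.SH Pool.Agent.Y215.SK Pool.Agent.Helper6K9.EX

/-- the height bound for sums of finite rank, for a given hypersurface -/
theorem height_of_all {n N r : ℕ} {k : Type} [Field k] [NumberField k] [Algebra k Qbar]
    (P : Fin N → MvPolynomial (Fin (n + 1)) k)
    (hP : ∀ i, ∃ e, (P i).IsHomogeneous e) (G : MvPolynomial (Fin (n + 1)) k)
    (hG : ∃ e, G.IsHomogeneous e)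
    (hall : ∀ (L : Type) [Field L] [Algebra k L] (c : Fin r → Fin (n + 1) → L) (l : Fin r → ℕ),
      (∀ i, MvPolynomial.aeval (cur c l) (P i) = 0) →
      (∃ i i', cur c l i * Polynomial.C (∑ j, c j i') ≠
        cur c l i' * Polynomial.C (∑ j, c j i)) →
      MvPolynomial.aeval (fun i => ∑ j, c j i) G = 0) :
    HeightBound r P (fun _ : Fin 1 => G) := by
  classical
  intro Γ hΓ
  obtain ⟨C, hC⟩ := mult_bound P hP G hG hall Γ hΓ
  refine ⟨|C| + r + 1, fun u V hu ⟨hx0, hx1, i, hxi⟩ => ?_⟩
  obtain ⟨J, hJ, hh⟩ := hC u V hu ⟨hx0, hx1, hxi⟩
  obtain ⟨c, hc, hc2⟩ := good_prop J u V hJ hx0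
  have hV0 : 0 ≤ hV V := absLogHeight_nonneg _
  have hr : (0 : ℝ) ≤ r := Nat.cast_nonneg r
  have h4 : C * (1 + hV V) ≤ |C| * (1 + hV V) :=
    mul_le_mul_of_nonneg_right (le_abs_self C) (by linarith)
  have h5 : 0 ≤ (r : ℝ) * hV V := mul_nonneg hr hV0
  rw [← absLogHeight_smul _ hc, ← hc2]
  have h6 := psum_height J u V
  nlinarith

/-- **The strong Lang conjecture for sparse points, uniformly in families.** -/
theorem result (n N d r : ℕ) (hd : 1 ≤ d) (hr : 1 ≤ r) :
    ∃ 𝓛 : Finset (MvPolynomial (Fin (n + 1))
        (MvPolynomial (Fin N × (Fin (n + 1) → Fin (d + 1))) ℤ)),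
      (∀ g ∈ 𝓛, ∃ e, g.IsHomogeneous e) ∧
      ∀ (k : Type) [Field k] [NumberField k] (P : Fin N → MvPolynomial (Fin (n + 1)) (𝓞 k)),
        (∀ i, ∃ e, e ≤ d ∧ (P i).IsHomogeneous e) → (idealP P).IsPrime →
        ¬ Uniruled (idealP P) →
        ∃ g ∈ 𝓛, ∃ G : MvPolynomial (Fin (n + 1)) k,
          G = MvPolynomial.map (algebraMap (𝓞 k) k) (MvPolynomial.map (coefHom d P) g) ∧
          G ∉ idealP P ∧
          -- (1) the count
          (∀ (K : Type) [Field K] [NumberField K] [Algebra k K] (b : 𝓞 K), b ≠ 0 → ¬ IsUnit b →
            ∀ V : Finset (𝓞 K), (sparseOff P G K b r V).encard ≤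
              ((V.card ^ ((n + 1) * r) * ((Nat.factorial ((d + 1) ^ r)) ^ 2) ^ N : ℕ) : ℕ∞)) ∧
          -- (2) the height bound
          (∀ (A : ℝ), 1 ≤ A → (∀ i, nrm (P i) ≤ A) →
            ∀ (K : Type) [Field K] [NumberField K] [Algebra k K] (t : K) (l : Fin r → ℕ)
              (v : Fin r → Fin (n + 1) → K) (x : Fin (n + 1) → K), OnSparse t l v x →
              IsZero (Set.range P) x → aeval x G ≠ 0 →
              ah K x ≤ (1 + 8 * (4 * d) ^ r) *
                (d * ah K (fun q : Fin r × Fin (n + 1) => v q.1 q.2) + Real.log (A * r ^ d))) ∧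
          -- (3) sums of elements of groups of finite rank
          (∀ [Algebra k Qbar],
            HeightBound r (fun i => MvPolynomial.map (algebraMap (𝓞 k) k) (P i))
              (fun _ : Fin 1 => G) ∧
            FiniteSums r (fun i => MvPolynomial.map (algebraMap (𝓞 k) k) (P i))
              (fun _ : Fin 1 => G)) := by
  obtain ⟨𝓛, hL1, hL2⟩ := exists_univ n N d r hd
  refine ⟨𝓛, hL1, ?_⟩
  intro k _ _ P hP hprime hnu
  have hrange : (MvPolynomial.map (algebraMap (𝓞 k) k)) '' Set.range P =
      Set.range (fun i => MvPolynomial.map (algebraMap (𝓞 k) k) (P i)) := by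
    rw [← Set.range_comp]
    rfl
  have hid : idealP P = Ideal.span (Set.range
      (fun i => MvPolynomial.map (algebraMap (𝓞 k) k) (P i))) := by
    unfold idealP
    rw [hrange]
  rw [hid] at hprime hnu
  obtain ⟨g, hg, hgI, hgC⟩ := hL2 k (fun i => MvPolynomial.map (algebraMap (𝓞 k) k) (P i))
    (fun i => by
      obtain ⟨e, he, hPe⟩ := hP i
      exact ⟨e, he, hPe.map _⟩) hprime hnu
  have hcoef : MvPolynomial.map (algebraMap (𝓞 k) k) (MvPolynomial.map (coefHom d P) g) =
      MvPolynomial.map (coefHom d (fun i => MvPolynomial.map (algebraMap (𝓞 k) k) (P i))) g := by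
    have hhom : (algebraMap (𝓞 k) k).comp (coefHom d P) =
        coefHom d (fun i => MvPolynomial.map (algebraMap (𝓞 k) k) (P i)) := by
      refine MvPolynomial.ringHom_ext (fun a => ?_) (fun q => ?_)
      · rw [RingHom.comp_apply]
        unfold coefHom
        rw [MvPolynomial.coe_eval₂Hom, MvPolynomial.coe_eval₂Hom, MvPolynomial.eval₂_C,
          MvPolynomial.eval₂_C]
        simp
      · rw [RingHom.comp_apply]
        unfold coefHom
        rw [MvPolynomial.coe_eval₂Hom, MvPolynomial.coe_eval₂Hom, MvPolynomial.eval₂_X,
          MvPolynomial.eval₂_X, MvPolynomial.coeff_map]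
    rw [MvPolynomial.map_map, hhom]
  refine ⟨g, hg, _, rfl, ?_, ?_, ?_, ?_⟩
  · rw [hid, hcoef]
    exact hgI
  · rw [hcoef]
    refine card_of_G k P d hP r _ fun L _ _ c l h1 h2 => hgC L c l (fun t => ?_) h2
    exact h1 _ ⟨P t, ⟨t, rfl⟩, rfl⟩
  · intro A hA hPA K _ _ _ t l v x hx hz hG
    rw [hcoef] at hG
    refine height_of_G k P d hd A hA (fun i => ⟨hP i, hPA i⟩) hr _ (fun L _ _ c l h1 h2 =>
      hgC L c l (fun t => ?_) h2) K t l v x hx hz hG
    exact h1 _ ⟨P t, ⟨t, rfl⟩, rfl⟩
  · intro _
    have h1 : HeightBound r (fun i => MvPolynomial.map (algebraMap (𝓞 k) k) (P i))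
        (fun _ : Fin 1 => MvPolynomial.map (algebraMap (𝓞 k) k)
          (MvPolynomial.map (coefHom d P) g)) := by
      rw [hcoef]
      refine height_of_all _ (fun i => ?_) _ ?_ (fun L _ _ c l h1 h2 => hgC L c l h1 h2)
      · obtain ⟨e, he, hPe⟩ := hP i
        exact ⟨e, hPe.map _⟩
      · obtain ⟨e, he⟩ := hL1 g hg
        exact ⟨e, he.map _⟩
    exact ⟨h1, finite_of_height h1⟩

end Pool.Agent.Results.MP_7ede32_ag.UniformFamilies
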